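import Pool.Agent.H974R2.Basic

set_option autoImplicit false

/-! Job 1334 (CB-TEL) of project CB: two elementary lemmas on finite products. -/

namespace Pool.Agent.Y960.CB

open H974 (Ex Ok)
open Finset

section

variable {E : Type} [DecidableEq E]

theorem Ex_erase (p : E → ℝ) {c : E} {S : Finset E} (hc : c ∈ S) (f : Finset E → ℝ) :
    Ex p S f = p c * Ex p (S.erase c) (fun A => f (insert c A)) + (1 - p c) * Ex p (S.erase c) f := by
  conv_lhs => rw [← insert_erase hc]
  exact H974.Ex_insert p (notMem_erase c S) f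

theorem Ex_ins (p : E → ℝ) {c : E} {S : Finset E} (hc : c ∈ S) (f : Finset E → ℝ)
    (hf : ∀ A, f (insert c A) = f A) : Ex p S f = Ex p (S.erase c) f := by
  rw [Ex_erase p hc]
  have h1 : (fun A => f (insert c A)) = f := funext hf
  rw [h1]
  ring

/-- opening one element -/
theorem open_one {p : E → ℝ} (hp : Ok p) {κ : ℝ} {c : E} {S : Finset E} (hc : c ∈ S) (hκ : κ ≤ p c)
    (g : Finset E → ℝ) (hg : ∀ A, A ⊆ S → 0 ≤ g A) :
    κ * Ex p S (fun A => g (insert c A)) ≤ Ex p S g := by
  rw [Ex_ins p hc (fun A => g (insert c A)) (fun A => by rw [insert_idem]), Ex_erase p hc g]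
  have h1 : 0 ≤ Ex p (S.erase c) (fun A => g (insert c A)) := H974.Ex_nonneg hp fun A hA =>
    hg _ (insert_subset hc (hA.trans (erase_subset _ _)))
  have h2 : 0 ≤ Ex p (S.erase c) g := H974.Ex_nonneg hp fun A hA => hg _ (hA.trans (erase_subset _ _))
  have h3 : 0 ≤ (1 - p c) * Ex p (S.erase c) g := mul_nonneg (by linarith [(hp c).2]) h2
  have h4 : κ * Ex p (S.erase c) (fun A => g (insert c A)) ≤
      p c * Ex p (S.erase c) (fun A => g (insert c A)) := mul_le_mul_of_nonneg_right hκ h1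
  linarith

/-- opening several elements -/
theorem open_many {p : E → ℝ} (hp : Ok p) {κ : ℝ} (hκ0 : 0 ≤ κ) {S : Finset E} (Q : Finset E) :
    Q ⊆ S → (∀ c ∈ Q, κ ≤ p c) → ∀ g : Finset E → ℝ, (∀ A, A ⊆ S → 0 ≤ g A) →
    κ ^ Q.card * Ex p S (fun A => g (A ∪ Q)) ≤ Ex p S g := by
  induction Q using Finset.induction_on with
  | empty =>
    intro _ _ g _
    simp
  | insert c Q hc ih =>
    intro hQ hκ g hg
    have hQS : Q ⊆ S := (subset_insert _ _).trans hQ
    have h1 := ih hQS (fun c' hc' => hκ c' (mem_insert_of_mem hc')) g hg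
    have h2 := open_one hp (hQ (mem_insert_self c Q)) (hκ c (mem_insert_self _ _)) (fun A => g (A ∪ Q))
      (fun A hA => hg _ (union_subset hA hQS))
    have h3 : (fun A : Finset E => g (A ∪ insert c Q)) = fun A => g (insert c A ∪ Q) := by
      funext A
      rw [union_insert, insert_union]
    rw [card_insert_of_notMem hc, h3, pow_succ]
    calc κ ^ Q.card * κ * Ex p S (fun A => g (insert c A ∪ Q))
        = κ ^ Q.card * (κ * Ex p S (fun A => g (insert c A ∪ Q))) := by ring
      _ ≤ κ ^ Q.card * Ex p S (fun A => g (A ∪ Q)) := mul_le_mul_of_nonneg_left h2 (pow_nonneg hκ0 _)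
      _ ≤ _ := h1

/-- TEL -/
theorem tel_core (S P : Finset E) (p : E → ℝ) (κ : ℝ) (f : Finset E → ℝ) (hp : Ok p) (hP : P ⊆ S)
    (hκ0 : 0 ≤ κ) (hκ1 : κ ≤ 1) (hκ : ∀ c ∈ P, κ ≤ p c) (hf : ∀ A A', A ⊆ A' → A' ⊆ S → f A' ≤ f A) :
    κ ^ (P.card + 1) * Ex p S (fun A => f A - f (A ∪ P)) ≤
      ∑ c ∈ P, p c * (1 - p c) * Ex p S (fun A => f (A.erase c) - f (insert c A)) := by
  have key : ∀ Q : Finset E, Q ⊆ P → κ ^ (P.card + 1) * Ex p S (fun A => f A - f (A ∪ Q)) ≤
      ∑ c ∈ Q, p c * (1 - p c) * Ex p S (fun A => f (A.erase c) - f (insert c A)) := by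
    intro Q
    induction Q using Finset.induction_on with
    | empty =>
      intro _
      simp only [union_empty, sub_self, sum_empty]
      rw [H974.Ex_const, mul_zero]
    | insert c Q hc ih =>
      intro hQP
      have hQP' : Q ⊆ P := (subset_insert _ _).trans hQP
      have hcP : c ∈ P := hQP (mem_insert_self _ _)
      have hcS : c ∈ S := hP hcP
      have h1 := ih hQP'
      set D : Finset E → ℝ := fun A => f (A.erase c) - f (insert c A) with hD
      have hD0 : ∀ A, A ⊆ S → 0 ≤ D A := by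
        intro A hA
        rw [hD]
        have := hf (A.erase c) (insert c A) ((erase_subset _ _).trans (subset_insert _ _)) (insert_subset hcS hA)
        dsimp only
        linarith
      have h2 := open_many hp hκ0 (S := S) Q (hQP'.trans hP) (fun c' hc' => hκ c' (hQP' hc')) D hD0
      have h3 : Ex p S (fun A => f (A ∪ Q) - f (A ∪ insert c Q)) = (1 - p c) * Ex p S (fun A => D (A ∪ Q)) := by
        rw [Ex_ins p hcS (fun A => D (A ∪ Q)) (fun A => by
          rw [hD]
          dsimp only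
          rw [insert_union, insert_idem, erase_insert_eq_erase]), Ex_erase p hcS]
        have h4 : Ex p (S.erase c) (fun A => f (insert c A ∪ Q) - f (insert c A ∪ insert c Q)) = 0 := by
          have h5 : (fun A : Finset E => f (insert c A ∪ Q) - f (insert c A ∪ insert c Q)) = fun _ => 0 := by
            funext A
            rw [insert_union, insert_union, union_insert, insert_idem, sub_self]
          rw [h5, H974.Ex_const]
        rw [h4, mul_zero, zero_add]
        congr 1
        apply H974.Ex_congr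
        intro A hA
        rw [hD]
        dsimp only
        have hcA : c ∉ A ∪ Q := by
          rw [mem_union]
          rintro (h | h)
          · exact notMem_erase c S (hA h)
          · exact hc h
        rw [erase_eq_of_notMem hcA, union_insert]
      have h6 : Ex p S (fun A => f A - f (A ∪ insert c Q)) =
          Ex p S (fun A => f A - f (A ∪ Q)) + Ex p S (fun A => f (A ∪ Q) - f (A ∪ insert c Q)) := by
        rw [← H974.Ex_add]
        congr 1
        funext A
        ring
      rw [h6, mul_add, sum_insert hc, add_comm (_ * _), h3]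
      refine add_le_add ?_ h1
      have hD1 : 0 ≤ Ex p S (fun A => D (A ∪ Q)) := H974.Ex_nonneg hp fun A hA =>
        hD0 _ (union_subset hA (hQP'.trans hP))
      have hD2 : 0 ≤ Ex p S D := H974.Ex_nonneg hp hD0
      have hpc : 0 ≤ 1 - p c := by linarith [(hp c).2]
      have hcard : Q.card ≤ P.card := card_le_card hQP'
      calc κ ^ (P.card + 1) * ((1 - p c) * Ex p S (fun A => D (A ∪ Q)))
          ≤ κ ^ (Q.card + 1) * ((1 - p c) * Ex p S (fun A => D (A ∪ Q))) :=
            mul_le_mul_of_nonneg_right (pow_le_pow_of_le_one hκ0 hκ1 (by omega)) (mul_nonneg hpc hD1)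
        _ = κ * (1 - p c) * (κ ^ Q.card * Ex p S (fun A => D (A ∪ Q))) := by ring
        _ ≤ κ * (1 - p c) * Ex p S D := mul_le_mul_of_nonneg_left h2 (mul_nonneg hκ0 hpc)
        _ ≤ p c * (1 - p c) * Ex p S D :=
            mul_le_mul_of_nonneg_right (mul_le_mul_of_nonneg_right (hκ c hcP) hpc) hD2
  exact key P le_rfl

end

/-- MERGE -/
theorem merge_core {E W : Type} [DecidableEq E] (B : Finset W) (C : W → Finset E → Set W) (m : ℕ) (hm : 1 ≤ m)
    (h1 : ∀ u ∈ B, ∀ A, C u A ⊆ B) (h2 : ∀ u ∈ B, ∀ A, u ∈ C u A)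
    (h3 : ∀ u ∈ B, ∀ A, ∀ w ∈ C u A, C w A = C u A) (h4 : ∀ u ∈ B, ∀ A A', A ⊆ A' → C u A ⊆ C u A')
    (A A' : Finset E) (hA : A ⊆ A') (x : W) (hx : x ∈ B) (y : W) (hy : y ∈ B) (hmx : m ≤ (C x A).ncard)
    (hmy : m ≤ (C y A).ncard) (hxy : y ∉ C x A) (hxy' : y ∈ C x A') :
    1 ≤ ∑ u ∈ B, (1 : ℝ) / (max m (C u A).ncard : ℕ) - ∑ u ∈ B, (1 : ℝ) / (max m (C u A').ncard : ℕ) := by
  classical
  have hfin : ∀ u ∈ B, ∀ A, (C u A).Finite := fun u hu A => B.finite_toSet.subset (h1 u hu A)
  set X : Finset W := B.filter fun w => w ∈ C x A with hX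
  set Y : Finset W := B.filter fun w => w ∈ C y A with hY
  have hXc : (X : Set W) = C x A := by
    ext w
    rw [hX, coe_filter, Set.mem_ofPred_eq]
    exact ⟨fun h => h.2, fun h => ⟨h1 x hx A h, h⟩⟩
  have hYc : (Y : Set W) = C y A := by
    ext w
    rw [hY, coe_filter, Set.mem_ofPred_eq]
    exact ⟨fun h => h.2, fun h => ⟨h1 y hy A h, h⟩⟩
  have hXn : (C x A).ncard = X.card := by rw [← hXc, Set.ncard_coe_finset]
  have hYn : (C y A).ncard = Y.card := by rw [← hYc, Set.ncard_coe_finset]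
  have hdis : Disjoint X Y := by
    rw [Finset.disjoint_left]
    intro w hwX hwY
    rw [hX, mem_filter] at hwX
    rw [hY, mem_filter] at hwY
    apply hxy
    rw [← h3 x hx A w hwX.2, h3 y hy A w hwY.2]
    exact h2 y hy A
  have hXB : X ⊆ B := filter_subset _ _
  have hYB : Y ⊆ B := filter_subset _ _
  rw [hXn] at hmx
  rw [hYn] at hmy
  have hterm : ∀ u ∈ B, 0 ≤ (1 : ℝ) / (max m (C u A).ncard : ℕ) - (1 : ℝ) / (max m (C u A').ncard : ℕ) := by
    intro u hu
    rw [sub_nonneg]
    have e1 : (C u A).ncard ≤ (C u A').ncard := Set.ncard_le_ncard (h4 u hu A A' hA) (hfin u hu A')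
    have e2 : max m (C u A).ncard ≤ max m (C u A').ncard := max_le_max le_rfl e1
    have e3 : 0 < max m (C u A).ncard := lt_of_lt_of_le (by omega) (le_max_left _ _)
    exact one_div_le_one_div_of_le (by exact_mod_cast e3) (by exact_mod_cast e2)
  rw [← sum_sub_distrib]
  have hge : ∑ u ∈ X ∪ Y, ((1 : ℝ) / (max m (C u A).ncard : ℕ) - (1 : ℝ) / (max m (C u A').ncard : ℕ)) ≤
      ∑ u ∈ B, ((1 : ℝ) / (max m (C u A).ncard : ℕ) - (1 : ℝ) / (max m (C u A').ncard : ℕ)) :=
    sum_le_sum_of_subset_of_nonneg (union_subset hXB hYB) fun u hu _ => hterm u hu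
  refine le_trans ?_ hge
  -- the class of `x` for `A'`
  have hxZ : C x A ⊆ C x A' := h4 x hx A A' hA
  have hyZ : C y A ⊆ C x A' := by
    have := h4 y hy A A' hA
    rwa [h3 x hx A' y hxy'] at this
  have hZ : X.card + Y.card ≤ (C x A').ncard := by
    have e1 : ((X ∪ Y : Finset W) : Set W) ⊆ C x A' := by
      rw [coe_union, hXc, hYc]
      exact Set.union_subset hxZ hyZ
    have e2 := Set.ncard_le_ncard e1 (hfin x hx A')
    rwa [Set.ncard_coe_finset, card_union_of_disjoint hdis] at e2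
  have hX0 : 0 < X.card := by omega
  have hY0 : 0 < Y.card := by omega
  have hXR : (0 : ℝ) < X.card := by exact_mod_cast hX0
  have hYR : (0 : ℝ) < Y.card := by exact_mod_cast hY0
  have hbound : ∀ u, C u A' = C x A' → (1 : ℝ) / (max m (C u A').ncard : ℕ) ≤ 1 / ((X.card : ℝ) + Y.card) := by
    intro u hu
    rw [hu]
    have e1 : X.card + Y.card ≤ max m (C x A').ncard := hZ.trans (le_max_right _ _)
    exact one_div_le_one_div_of_le (by positivity) (by exact_mod_cast e1)
  rw [sum_union hdis]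
  have hsX : (1 : ℝ) - X.card * (1 / ((X.card : ℝ) + Y.card)) ≤
      ∑ u ∈ X, ((1 : ℝ) / (max m (C u A).ncard : ℕ) - (1 : ℝ) / (max m (C u A').ncard : ℕ)) := by
    have e1 : ∀ u ∈ X, 1 / (X.card : ℝ) - 1 / ((X.card : ℝ) + Y.card) ≤
        ((1 : ℝ) / (max m (C u A).ncard : ℕ) - (1 : ℝ) / (max m (C u A').ncard : ℕ)) := by
      intro u hu
      rw [hX, mem_filter] at hu
      have e2 : C u A = C x A := h3 x hx A u hu.2
      have e3 : C u A' = C x A' := h3 x hx A' u (hxZ hu.2)
      have e4 := hbound u e3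
      rw [e2, hXn, max_eq_right hmx]
      linarith
    have e5 := card_nsmul_le_sum X _ _ e1
    rw [nsmul_eq_mul, mul_sub, mul_one_div_cancel hXR.ne'] at e5
    exact e5
  have hsY : (1 : ℝ) - Y.card * (1 / ((X.card : ℝ) + Y.card)) ≤
      ∑ u ∈ Y, ((1 : ℝ) / (max m (C u A).ncard : ℕ) - (1 : ℝ) / (max m (C u A').ncard : ℕ)) := by
    have e1 : ∀ u ∈ Y, 1 / (Y.card : ℝ) - 1 / ((X.card : ℝ) + Y.card) ≤
        ((1 : ℝ) / (max m (C u A).ncard : ℕ) - (1 : ℝ) / (max m (C u A').ncard : ℕ)) := by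
      intro u hu
      rw [hY, mem_filter] at hu
      have e2 : C u A = C y A := h3 y hy A u hu.2
      have e3 : C u A' = C x A' := h3 x hx A' u (hyZ hu.2)
      have e4 := hbound u e3
      rw [e2, hYn, max_eq_right hmy]
      linarith
    have e5 := card_nsmul_le_sum Y _ _ e1
    rw [nsmul_eq_mul, mul_sub, mul_one_div_cancel hYR.ne'] at e5
    exact e5
  have hsum : (X.card : ℝ) * (1 / ((X.card : ℝ) + Y.card)) + Y.card * (1 / ((X.card : ℝ) + Y.card)) = 1 := by
    rw [← add_mul, mul_one_div_cancel (by positivity)]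
  linarith

end Pool.Agent.Y960.CB
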