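import Pool.Agent.Y990.CB.Stm
import Pool.Agent.Y960.CB.TelCore

set_option autoImplicit false

/-! Job 1334 (CB-TEL) of project CB (helper990): `S_tel` and `S_merge`. -/

namespace Pool.Agent.Y960.CB

theorem tel : Pool.Agent.Y990.CB.S_tel := by
  intro E _ S P p κ f hp hP hκ0 hκ1 hκ hf
  exact tel_core S P p κ f hp hP hκ0 hκ1 hκ hf

theorem merge : Pool.Agent.Y990.CB.S_merge := by
  intro E W _ B C m hm h1 h2 h3 h4 A A' hA x hx y hy hmx hmy hxy hxy'
  exact merge_core B C m hm h1 h2 h3 h4 A A' hA x hx y hy hmx hmy hxy hxy'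

end Pool.Agent.Y960.CB
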