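import Pool.Agent.Y990.CB.Basic

set_option autoImplicit false

open MeasureTheory Set

/-! Job 1395 (CB-TWO) of project CB (helper990): the two-arm bound. -/

namespace Pool.Agent.Y960.CB

open Pool.Agent.Y990.CB

variable {d : ℕ}

/-- a connection visits all the values of a coordinate -/
theorem walk_coord {M : Mod d} {ω : M.ι → Bool} {R : Set (Z d)} (i : Fin d) {a b : Z d}
    (p : (G M ω R).Walk a b) : ∀ t : ℤ, t ∈ Finset.uIcc (a i) (b i) →
    ∃ v, (G M ω R).Reachable a v ∧ v i = t := by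
  induction p with
  | nil =>
    intro t ht
    rw [Finset.uIcc_self, Finset.mem_singleton] at ht
    exact ⟨_, SimpleGraph.Reachable.refl _, ht.symm⟩
  | cons h q ih =>
    rename_i x y w
    intro t ht
    by_cases hx : t = x i
    · exact ⟨x, SimpleGraph.Reachable.refl _, hx.symm⟩
    · have h1 := abs_le.1 (Nb_coord h.1 i)
      have h2 : t ∈ Finset.uIcc (y i) (w i) := by
        rw [Finset.mem_uIcc] at ht ⊢
        omega
      obtain ⟨v, hv, hv'⟩ := ih t h2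
      exact ⟨v, SimpleGraph.Reachable.trans h.reachable hv, hv'⟩

theorem card_cl {M : Mod d} {ω : M.ι → Bool} {R : Set (Z d)} (i : Fin d) {a b : Z d}
    (h : (G M ω R).Reachable a b) (hfin : (cl M ω R a).Finite) (n : ℕ) (hn : (n : ℤ) ≤ |b i - a i|) :
    n + 1 ≤ (cl M ω R a).ncard := by
  obtain ⟨p⟩ := h
  have h1 : ((Finset.uIcc (a i) (b i) : Finset ℤ) : Set ℤ) ⊆ (fun v : Z d => v i) '' cl M ω R a := by
    intro t ht
    obtain ⟨v, hv, hv'⟩ := walk_coord i p t (Finset.mem_coe.1 ht)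
    exact ⟨v, hv, hv'⟩
  have h2 := Set.ncard_le_ncard h1 (hfin.image _)
  have h3 := Set.ncard_image_le (f := fun v : Z d => v i) hfin
  rw [Set.ncard_coe_finset, Int.card_uIcc] at h2
  have h4 : n ≤ (b i - a i).natAbs := by
    rw [← Int.natCast_natAbs] at hn
    exact_mod_cast hn
  omega

/-- the event in `S_box` -/
def Dv (M : Mod d) (L m : ℕ) (x y : Z d) : Set (M.ι → Bool) :=
  {ω | m ≤ (cl M ω (Bo 0 L) x).ncard ∧ m ≤ (cl M ω (Bo 0 L) y).ncard ∧ y ∉ cl M ω (Bo 0 L) x}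

theorem arm_card {M : Mod d} {ω : M.ι → Bool} {u x : Z d} {k L Q : ℕ} (hQ1 : 1 ≤ Q) (hk : k ≤ Q) (hL : 8 * Q ≤ L)
    (hu : u ∈ Bo (0 : Z d) Q) (hx : x ∈ Bo u k) (hA : Am M ω u L x) :
    Q ≤ (cl M ω (Bo (0 : Z d) (4 * Q)) x).ncard := by
  obtain ⟨x', hx', h⟩ := hA
  have hxB : x ∈ Bo (0 : Z d) (2 * Q) := Bo_sub hu (by omega) hx
  have hxB' : x ∈ Bo (0 : Z d) (4 * Q) := Bo_mono 0 (by omega) hxB
  have hout : x' ∉ Bo (0 : Z d) (4 * Q) := by
    intro hin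
    obtain ⟨_, i, hi⟩ := hx'
    have h1 := abs_le.1 (hin i)
    have h2 := abs_le.1 (hu i)
    simp only [Pi.zero_apply, sub_zero] at h1 h2
    rcases abs_cases (x' i - u i) with ⟨h3, _⟩ | ⟨h3, _⟩ <;> omega
  obtain ⟨x'', ⟨_, i, hi⟩, h2⟩ := exit_box hxB' hout h
  have h3 := reach_mono (R' := Bo (0 : Z d) (4 * Q)) Set.inter_subset_right h2
  have h4 := abs_le.1 (hxB i)
  simp only [Pi.zero_apply, sub_zero] at h4 hi
  have h5 : ((2 * Q : ℕ) : ℤ) ≤ |x'' i - x i| := by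
    rcases abs_cases (x'' i) with ⟨h6, _⟩ | ⟨h6, _⟩ <;>
      rcases abs_cases (x'' i - x i) with ⟨h7, _⟩ | ⟨h7, _⟩ <;> omega
  have h6 := card_cl i h3 ((Bo_finite _ _).subset (cl_subset hxB')) _ h5
  omega

theorem Ta_sub (M : Mod d) {u : Z d} {k L Q : ℕ} (hQ1 : 1 ≤ Q) (hk : k ≤ Q) (hL : 8 * Q ≤ L)
    (hu : u ∈ Bo (0 : Z d) Q) :
    Ta M u k L ⊆ ⋃ a ∈ Bf (0 : Z d) k, ⋃ b ∈ Bf (0 : Z d) k, Dv M (4 * Q) Q (u + a) (b - a + (u + a)) := by
  rintro ω ⟨x, hx, y, hy, hAx, hAy, hn⟩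
  have hsh : ∀ v : Z d, v ∈ Bo u k → v - u ∈ Bf (0 : Z d) k := by
    intro v hv
    rw [mem_Bf]
    intro i
    have := hv i
    simpa using this
  simp only [mem_iUnion]
  refine ⟨x - u, hsh x hx, y - u, hsh y hy, ?_⟩
  have e1 : u + (x - u) = x := by abel
  have e2 : y - u - (x - u) + x = y := by abel
  rw [e1, e2]
  refine ⟨arm_card hQ1 hk hL hu hx hAx, arm_card hQ1 hk hL hu hy hAy, fun hc => hn ?_⟩
  refine reach_mono (R' := Bo u L) ?_ hc
  exact Bo_sub (mem_Bo_comm.1 hu) (by omega)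

/-- the two-arm bound -/
theorem two (h : S_box) : S_two := by
  classical
  intro d M p hp
  obtain ⟨C₀, hC₀, hbox⟩ := h d M p hp
  set C : ℝ := 8 * (4 ^ d * C₀ ^ 2 * 4 ^ (d + 1)) with hC
  have hC01 : (1 : ℝ) ≤ C₀ ^ 2 := one_le_pow₀ hC₀
  have h4d : (1 : ℝ) ≤ 4 ^ d := one_le_pow₀ (by norm_num)
  have h4d' : (1 : ℝ) ≤ 4 ^ (d + 1) := one_le_pow₀ (by norm_num)
  have hprod1 : (1 : ℝ) ≤ 4 ^ d * C₀ ^ 2 * 4 ^ (d + 1) := by
    have : (1 : ℝ) ≤ 4 ^ d * C₀ ^ 2 := by nlinarith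
    nlinarith
  have hC8 : 8 ≤ C := by rw [hC]; linarith
  refine ⟨C, by linarith, fun z k L hL => ?_⟩
  have hLR : (0 : ℝ) < L := by exact_mod_cast hL
  have hsL : 0 < √(L : ℝ) := Real.sqrt_pos.2 hLR
  rcases Nat.eq_zero_or_pos d with hd | hd
  · subst hd
    have h1 : Ta M z k L = ∅ := by
      rw [eq_empty_iff_forall_notMem]
      rintro ω ⟨x, _, y, _, ⟨x', ⟨_, i, _⟩, _⟩, _⟩
      exact i.elim0
    rw [h1, measureReal_empty]
    positivity
  set Q := L / 8 with hQ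
  by_cases hkQ : Q ≤ k
  · -- trivial case
    have h1 : L < 8 * (k + 1) := by omega
    have h2 : (L : ℝ) ≤ 8 ^ (k + 1) := by
      have h3 : 8 * (k + 1) ≤ 8 ^ (k + 1) := by
        have h4 : k + 1 ≤ 8 ^ k := (Nat.lt_pow_self (by norm_num : 1 < 8))
        calc 8 * (k + 1) ≤ 8 * 8 ^ k := Nat.mul_le_mul_left _ h4
          _ = 8 ^ (k + 1) := by rw [pow_succ, mul_comm]
      exact_mod_cast h1.le.trans h3
    have h3 : √(L : ℝ) ≤ C ^ (k + 1) := by
      have h4 : √(L : ℝ) ≤ L := by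
        rw [Real.sqrt_le_left hLR.le]
        have : (1 : ℝ) ≤ L := by exact_mod_cast hL
        nlinarith
      exact h4.trans (h2.trans (pow_le_pow_left₀ (by norm_num) hC8 _))
    calc (mu M p).real (Ta M z k L) ≤ 1 := measureReal_le_one
      _ ≤ C ^ (k + 1) / √(L : ℝ) := by rwa [one_le_div hsL]
  rw [not_le] at hkQ
  have hQ1 : 1 ≤ Q := by omega
  have h8Q : 8 * Q ≤ L := by omega
  have hQR : (1 : ℝ) ≤ Q := by exact_mod_cast hQ1
  have hsQ : 0 < √(Q : ℝ) := Real.sqrt_pos.2 (by linarith)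
  -- translation
  have hTa : ∀ u : Z d, (mu M p).real (Ta M u k L) = (mu M p).real (Ta M 0 k L) := by
    intro u
    have := Ta_shift M p 0 u k L
    rwa [zero_add] at this
  rw [hTa z]
  set T := (mu M p).real (Ta M 0 k L) with hT
  -- the union bound
  have h1 : ∀ u ∈ Bf (0 : Z d) Q, T ≤ ∑ a ∈ Bf (0 : Z d) k, ∑ b ∈ Bf (0 : Z d) k,
      (mu M p).real (Dv M (4 * Q) Q (u + a) (b - a + (u + a))) := by
    intro u hu
    rw [mem_Bf] at hu
    rw [← hTa u]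
    refine (measureReal_mono (Ta_sub M hQ1 hkQ.le h8Q hu) (measure_ne_top _ _)).trans ?_
    refine (measureReal_biUnion_finset_le _ _).trans (Finset.sum_le_sum fun a _ => ?_)
    exact measureReal_biUnion_finset_le _ _
  have h2 : ((Bf (0 : Z d) Q).card : ℝ) * T ≤ ∑ u ∈ Bf (0 : Z d) Q, ∑ a ∈ Bf (0 : Z d) k, ∑ b ∈ Bf (0 : Z d) k,
      (mu M p).real (Dv M (4 * Q) Q (u + a) (b - a + (u + a))) := by
    rw [← nsmul_eq_mul]
    exact Finset.card_nsmul_le_sum _ _ _ h1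
  -- the box bound
  set K : ℝ := C₀ ^ (2 * k + 1) * (2 * (4 * Q) + 1 : ℕ) ^ d / √(Q : ℝ) with hK
  have h3 : ∀ a ∈ Bf (0 : Z d) k, ∀ b ∈ Bf (0 : Z d) k,
      ∑ u ∈ Bf (0 : Z d) Q, (mu M p).real (Dv M (4 * Q) Q (u + a) (b - a + (u + a))) ≤ K := by
    intro a ha b hb
    rw [mem_Bf] at ha hb
    have h4 := hbox (4 * Q) Q (b - a) ((Bf (0 : Z d) Q).image fun u => u + a) hQ1 (by
      intro x hx
      obtain ⟨u, hu, rfl⟩ := Finset.mem_image.1 hx
      rw [mem_Bf] at hu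
      constructor
      · intro i
        have e1 := abs_le.1 (hu i)
        have e2 := abs_le.1 (ha i)
        simp only [Pi.zero_apply, sub_zero] at e1 e2
        rw [abs_le]
        simp only [Pi.add_apply, Pi.zero_apply, sub_zero]
        push_cast
        constructor <;> omega
      · intro i
        have e1 := abs_le.1 (hu i)
        have e2 := abs_le.1 (hb i)
        simp only [Pi.zero_apply, sub_zero] at e1 e2
        rw [abs_le]
        simp only [Pi.add_apply, Pi.sub_apply, Pi.zero_apply, sub_zero]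
        push_cast
        constructor <;> omega)
    rw [Finset.sum_image (fun u _ u' _ he => add_right_cancel he)] at h4
    refine h4.trans ?_
    rw [hK]
    have h5 : nm (b - a) ≤ 2 * k := by
      rw [nm_le]
      intro i
      have e1 := abs_le.1 (ha i)
      have e2 := abs_le.1 (hb i)
      simp only [Pi.zero_apply, sub_zero] at e1 e2
      rw [abs_le]
      simp only [Pi.sub_apply]
      push_cast
      constructor <;> omega
    have h6 : C₀ ^ (nm (b - a) + 1) ≤ C₀ ^ (2 * k + 1) := pow_le_pow_right₀ hC₀ (by omega)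
    gcongr
  have h4 : ((Bf (0 : Z d) Q).card : ℝ) * T ≤ ((Bf (0 : Z d) k).card : ℝ) * (((Bf (0 : Z d) k).card : ℝ) * K) := by
    refine h2.trans ?_
    rw [Finset.sum_comm]
    rw [← nsmul_eq_mul, ← nsmul_eq_mul]
    refine Finset.sum_le_card_nsmul _ _ _ fun a ha => ?_
    rw [Finset.sum_comm]
    refine Finset.sum_le_card_nsmul _ _ _ fun b hb => ?_
    exact h3 a ha b hb
  rw [card_Bf, card_Bf] at h4
  push_cast at h4
  have hQd : (0 : ℝ) < (2 * (Q : ℝ) + 1) ^ d := by positivity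
  have h5 : T ≤ (2 * (k : ℝ) + 1) ^ d * ((2 * (k : ℝ) + 1) ^ d * K) / (2 * (Q : ℝ) + 1) ^ d := by
    rw [le_div_iff₀ hQd, mul_comm T]
    exact h4
  refine h5.trans ?_
  -- elementary estimates
  have e1 : (2 * (k : ℝ) + 1) ^ d ≤ (2 ^ d) ^ (k + 1) := by
    rw [← pow_mul, mul_comm d, pow_mul]
    refine pow_le_pow_left₀ (by positivity) ?_ _
    have : 2 * k + 1 ≤ 2 ^ (k + 1) := by
      have h6 : k + 1 ≤ 2 ^ k := Nat.lt_two_pow_self
      rw [pow_succ]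
      omega
    exact_mod_cast this
  have e2 : ((2 * (4 * Q) + 1 : ℕ) : ℝ) ^ d ≤ 4 ^ d * (2 * (Q : ℝ) + 1) ^ d := by
    rw [← mul_pow]
    refine pow_le_pow_left₀ (by positivity) ?_ _
    push_cast
    linarith
  have e3 : C₀ ^ (2 * k + 1) ≤ (C₀ ^ 2) ^ (k + 1) := by
    rw [← pow_mul]
    exact pow_le_pow_right₀ hC₀ (by omega)
  have e4 : 1 / √(Q : ℝ) ≤ 4 / √(L : ℝ) := by
    rw [div_le_div_iff₀ hsQ hsL, one_mul]
    have h6 : (L : ℝ) ≤ 4 ^ 2 * Q := by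
      have : L ≤ 16 * Q := by omega
      have h7 : (L : ℝ) ≤ 16 * Q := by exact_mod_cast this
      linarith
    calc √(L : ℝ) ≤ √(4 ^ 2 * (Q : ℝ)) := Real.sqrt_le_sqrt h6
      _ = 4 * √(Q : ℝ) := by rw [Real.sqrt_mul (by norm_num), Real.sqrt_sq (by norm_num)]
  have e5 : K / (2 * (Q : ℝ) + 1) ^ d ≤ (C₀ ^ 2) ^ (k + 1) * 4 ^ d * (4 / √(L : ℝ)) := by
    rw [hK, div_le_iff₀ hQd, div_eq_mul_one_div]
    calc C₀ ^ (2 * k + 1) * ((2 * (4 * Q) + 1 : ℕ) : ℝ) ^ d * (1 / √(Q : ℝ))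
        ≤ (C₀ ^ 2) ^ (k + 1) * (4 ^ d * (2 * (Q : ℝ) + 1) ^ d) * (4 / √(L : ℝ)) :=
          mul_le_mul (mul_le_mul e3 e2 (by positivity) (by positivity)) e4 (by positivity) (by positivity)
      _ = _ := by ring
  have e6 : (1 : ℝ) ≤ 8 ^ (k + 1) := one_le_pow₀ (by norm_num)
  have e7 : (4 : ℝ) ^ (d + 1) ≤ (4 ^ (d + 1)) ^ (k + 1) := le_self_pow₀ h4d' (by omega)
  calc (2 * (k : ℝ) + 1) ^ d * ((2 * (k : ℝ) + 1) ^ d * K) / (2 * (Q : ℝ) + 1) ^ d
      = (2 * (k : ℝ) + 1) ^ d * (2 * (k : ℝ) + 1) ^ d * (K / (2 * (Q : ℝ) + 1) ^ d) := by ring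
    _ ≤ (2 ^ d) ^ (k + 1) * (2 ^ d) ^ (k + 1) * ((C₀ ^ 2) ^ (k + 1) * 4 ^ d * (4 / √(L : ℝ))) :=
        mul_le_mul (mul_le_mul e1 e1 (by positivity) (by positivity)) e5 (by positivity) (by positivity)
    _ = (4 ^ d) ^ (k + 1) * (C₀ ^ 2) ^ (k + 1) * 4 ^ (d + 1) / √(L : ℝ) := by
        rw [← mul_pow, ← mul_pow, pow_succ 4 d]
        norm_num
        ring
    _ ≤ (4 ^ d) ^ (k + 1) * (C₀ ^ 2) ^ (k + 1) * (4 ^ (d + 1)) ^ (k + 1) / √(L : ℝ) := by
        gcongr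
    _ ≤ 8 ^ (k + 1) * ((4 ^ d) ^ (k + 1) * (C₀ ^ 2) ^ (k + 1) * (4 ^ (d + 1)) ^ (k + 1)) / √(L : ℝ) := by
        refine div_le_div_of_nonneg_right ?_ hsL.le
        exact le_mul_of_one_le_left (by positivity) e6
    _ = C ^ (k + 1) / √(L : ℝ) := by
        rw [hC, mul_pow, mul_pow, mul_pow]

end Pool.Agent.Y960.CB
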